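import Mathlib

/-!
# External contextual grammars: strictly locally 2-testable versus ordered selection languages
-/

set_option autoImplicit false

namespace Pool.Agent.Results.MP_4db40a_lc.StrictlyLocalNotOrdered

/-- `w` is a word over the alphabet `U`. -/
def Over (U : Finset ℕ) (w : List ℕ) : Prop := ∀ a ∈ w, a ∈ U

/-- `L` is an ordered language with respect to the alphabet `U`: it is accepted by a complete
deterministic finite automaton with a total order on the states such that every letter of `U` acts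
monotonically. -/
def IsOrdered (U : Finset ℕ) (L : Set (List ℕ)) : Prop :=
  ∃ (Z : Type) (_ : Fintype Z) (_ : LinearOrder Z) (δ : Z → ℕ → Z) (z₀ : Z) (F : Set Z),
    (∀ a ∈ U, Monotone fun z => δ z a) ∧
    ∀ w : List ℕ, w ∈ L ↔ Over U w ∧ w.foldl δ z₀ ∈ F

/-- `L` is strictly locally `k`-testable with respect to the alphabet `U`. -/
def IsSLT (k : ℕ) (U : Finset ℕ) (L : Set (List ℕ)) : Prop :=
  (∀ w ∈ L, Over U w) ∧
  ∃ B I E : Set (List ℕ), (∀ w ∈ B ∪ I ∪ E, Over U w ∧ w.length = k) ∧
    ∀ w : List ℕ, Over U w → k ≤ w.length →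
      (w ∈ L ↔ w.take k ∈ B ∧ w.drop (w.length - k) ∈ E ∧
        ∀ j, 1 ≤ j → j + k + 1 ≤ w.length → (w.drop j).take k ∈ I)

/-- A contextual grammar with selection languages from the family `Fam` (where `Fam U S` says that
`S` belongs to the family as a language over `U`): an alphabet `V`, finitely many axioms, and
finitely many selection pairs `(sel i, ctx i)`, where `sel i` is a language over a subalphabet
`U i`. -/
structure Grammar (Fam : Finset ℕ → Set (List ℕ) → Prop) where
  V : Finset ℕ
  ax : Finset (List ℕ)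
  ι : Type
  fin : Finite ι
  U : ι → Finset ℕ
  sel : ι → Set (List ℕ)
  ctx : ι → Finset (List ℕ × List ℕ)
  ax_over : ∀ w ∈ ax, Over V w
  U_sub : ∀ i, U i ⊆ V
  sel_over : ∀ i, ∀ w ∈ sel i, Over (U i) w
  sel_fam : ∀ i, Fam (U i) (sel i)
  ctx_over : ∀ i, ∀ c ∈ ctx i, Over V c.1 ∧ Over V c.2

/-- The words generated by external derivation steps `x ⇒ u x v` with `x ∈ sel i` and
`(u, v) ∈ ctx i`. -/
inductive Gen {Fam : Finset ℕ → Set (List ℕ) → Prop} (G : Grammar Fam) : List ℕ → Prop
  | ax (w : List ℕ) (h : w ∈ G.ax) : Gen G w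
  | step (x : List ℕ) (i : G.ι) (c : List ℕ × List ℕ) (hx : Gen G x) (hs : x ∈ G.sel i)
      (hc : c ∈ G.ctx i) : Gen G (c.1 ++ x ++ c.2)

/-- The family of languages generated externally by grammars with selection in `Fam`. -/
def EC (Fam : Finset ℕ → Set (List ℕ) → Prop) : Set (Set (List ℕ)) :=
  {L | ∃ G : Grammar Fam, {w | Gen G w} = L}

/-! ### The digraph -/

/-- edges of the digraph on `{0,...,5}` -/
def E (a b : ℕ) : Prop := (a < 3 ∧ 3 ≤ b ∧ b < 6 ∧ b ≠ a + 3) ∨ (3 ≤ a ∧ a < 6 ∧ b < 3)

/-- `w` is a path starting behind `l` -/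
def P : ℕ → List ℕ → Prop
  | _, [] => True
  | l, a :: w => E l a ∧ P a w

/-- the last letter -/
def lst : ℕ → List ℕ → ℕ
  | l, [] => l
  | _, a :: w => lst a w

theorem P_append (l : ℕ) (w w' : List ℕ) : P l (w ++ w') ↔ P l w ∧ P (lst l w) w' := by
  induction w generalizing l with
  | nil => simp [P, lst]
  | cons a w ih => simp [P, lst, ih, and_assoc]

theorem lst_append (l : ℕ) (w w' : List ℕ) : lst l (w ++ w') = lst (lst l w) w' := by
  induction w generalizing l with
  | nil => rfl
  | cons a w ih => simp [lst, ih]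

theorem E_lt {a b : ℕ} (h : E a b) : a < 6 ∧ b < 6 := by
  rcases h with h | h <;> omega

theorem P_lt {l : ℕ} {w : List ℕ} (h : P l w) : ∀ a ∈ w, a < 6 := by
  induction w generalizing l with
  | nil => simp
  | cons b w ih =>
    intro a ha
    rcases List.mem_cons.1 ha with rfl | ha
    · exact (E_lt h.1).2
    · exact ih h.2 a ha

theorem lst_lt {l : ℕ} (hl : l < 6) {w : List ℕ} (h : ∀ a ∈ w, a < 6) : lst l w < 6 := by
  induction w generalizing l with
  | nil => exact hl
  | cons b w ih =>
    exact ih (h b List.mem_cons_self) (fun a ha => h a (List.mem_cons_of_mem _ ha))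

/-- The main combinatorial statement: no monotone automaton has the liveness of the path
automaton. -/
theorem core {Z : Type} [LinearOrder Z] [Finite Z] (δ : Z → ℕ → Z)
    (hmono : ∀ a < 6, Monotone fun z => δ z a) (alive : Z → Prop)
    (hal : ∀ z a, a < 6 → alive (δ z a) → alive z) (l0 : ℕ) (hl0 : l0 < 6) (q0 : Z)
    (h : ∀ w : List ℕ, (∀ a ∈ w, a < 6) → (alive (w.foldl δ q0) ↔ P l0 w)) : False := by
  classical
  let Good : ℕ × Z → Prop := fun c => c.1 < 6 ∧
    ∀ w : List ℕ, (∀ a ∈ w, a < 6) → (alive (w.foldl δ c.2) ↔ P c.1 w)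
  let Reach : ℕ × Z → Set (ℕ × Z) := fun c =>
    {d | ∃ w : List ℕ, P c.1 w ∧ d = (lst c.1 w, w.foldl δ c.2)}
  have hfin : ∀ c, Good c → (Reach c).Finite := by
    intro c hc
    refine Set.Finite.subset ((Set.finite_Iio 6).prod (Set.finite_univ (α := Z))) ?_
    rintro d ⟨w, hw, rfl⟩
    exact ⟨lst_lt hc.1 (P_lt hw), Set.mem_univ _⟩
  have hgood : ∀ c, Good c → ∀ w, P c.1 w → Good (lst c.1 w, w.foldl δ c.2) := by
    intro c hc w hw
    refine ⟨lst_lt hc.1 (P_lt hw), ?_⟩
    intro w' hw'
    have h1 := hc.2 (w ++ w') (by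
      intro a ha
      rcases List.mem_append.1 ha with ha | ha
      · exact P_lt hw a ha
      · exact hw' a ha)
    rw [List.foldl_append, P_append] at h1
    rw [h1]
    exact ⟨fun h => h.2, fun h => ⟨hw, h⟩⟩
  obtain ⟨c, hc, hmin⟩ : ∃ c, Good c ∧ ∀ d, Good d → (Reach c).ncard ≤ (Reach d).ncard := by
    have hex : ∃ n, ∃ c, Good c ∧ (Reach c).ncard = n := ⟨_, (l0, q0), ⟨hl0, h⟩, rfl⟩
    obtain ⟨c, hc, hn⟩ := Nat.find_spec hex
    refine ⟨c, hc, fun d hd => ?_⟩
    rw [hn]
    exact Nat.find_min' hex ⟨d, hd, rfl⟩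
  have hret : ∀ d ∈ Reach c, c ∈ Reach d := by
    rintro d ⟨w, hw, rfl⟩
    have hd := hgood c hc w hw
    have hsub : Reach (lst c.1 w, w.foldl δ c.2) ⊆ Reach c := by
      rintro e ⟨w', hw', rfl⟩
      exact ⟨w ++ w', (P_append _ _ _).2 ⟨hw, hw'⟩, by rw [lst_append, List.foldl_append]⟩
    have heq := Set.eq_of_subset_of_ncard_le hsub (hmin _ hd) (hfin c hc)
    rw [heq]
    exact ⟨[], trivial, rfl⟩
  have htrans : ∀ d ∈ Reach c, ∀ e ∈ Reach d, e ∈ Reach c := by
    rintro d ⟨w, hw, rfl⟩ e ⟨w', hw', rfl⟩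
    exact ⟨w ++ w', (P_append _ _ _).2 ⟨hw, hw'⟩, by rw [lst_append, List.foldl_append]⟩
  have hconn : ∀ d ∈ Reach c, ∀ e ∈ Reach c, e ∈ Reach d := by
    intro d hd e he
    obtain ⟨w, hw, h1⟩ := hret d hd
    obtain ⟨w', hw', rfl⟩ := he
    refine ⟨w ++ w', (P_append _ _ _).2 ⟨hw, ?_⟩, ?_⟩
    · rw [← (Prod.mk.inj h1).1]; exact hw'
    · rw [lst_append, List.foldl_append, ← (Prod.mk.inj h1).1, ← (Prod.mk.inj h1).2]
  have hgr : ∀ d ∈ Reach c, Good d := by
    rintro d ⟨w, hw, rfl⟩
    exact hgood c hc w hw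
  -- the states reached with last letter in `{3,4,5}`
  let X : Set Z := {q | ∃ l, 3 ≤ l ∧ l < 6 ∧ (l, q) ∈ Reach c}
  have hX : X.Nonempty := by
    by_cases h3 : 3 ≤ c.1
    · exact ⟨c.2, c.1, h3, hc.1, [], trivial, rfl⟩
    · have hE : E c.1 (if c.1 = 0 then 4 else 3) := by
        by_cases h0 : c.1 = 0
        · rw [if_pos h0]; left; omega
        · rw [if_neg h0]; left; omega
      refine ⟨δ c.2 (if c.1 = 0 then 4 else 3), (if c.1 = 0 then 4 else 3), ?_, ?_,
        [if c.1 = 0 then 4 else 3], ⟨hE, trivial⟩, rfl⟩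
      · split_ifs <;> omega
      · split_ifs <;> omega
  obtain ⟨r, ⟨lr, hlr3, hlr6, hr⟩, hrmin⟩ :=
    WellFounded.has_min (wellFounded_lt (α := Z)) X hX
  have hrg := hgr _ hr
  -- the actions of the letters
  have al1 : ∀ i < 3, alive (δ r i) := by
    intro i hi
    have := hrg.2 [i] (by simp; omega)
    exact this.2 ⟨Or.inr ⟨hlr3, hlr6, hi⟩, trivial⟩
  have al2 : ∀ i < 3, ∀ b, b < 6 → (alive (δ (δ r i) b) ↔ E i b) := by
    intro i hi b hb
    have := hrg.2 [i, b] (by simp; omega)
    simp only [List.foldl_cons, List.foldl_nil] at this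
    rw [this]
    constructor
    · intro h; exact h.2.1
    · intro h; exact ⟨Or.inr ⟨hlr3, hlr6, hi⟩, h, trivial⟩
  have hdead : ∀ (v : List ℕ) (z : Z), (∀ a ∈ v, a < 6) → alive (v.foldl δ z) → alive z := by
    intro v
    induction v with
    | nil => intro z _ hz; exact hz
    | cons a v ih =>
      intro z hv hz
      exact hal z a (hv a List.mem_cons_self)
        (ih (δ z a) (fun b hb => hv b (List.mem_cons_of_mem _ hb)) hz)
  have hmonov : ∀ (v : List ℕ), (∀ a ∈ v, a < 6) → Monotone fun z => v.foldl δ z := by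
    intro v
    induction v with
    | nil => intro _ z z' hz; exact hz
    | cons a v ih =>
      intro hv z z' hz
      exact ih (fun b hb => hv b (List.mem_cons_of_mem _ hb)) (hmono a (hv a List.mem_cons_self) hz)
  -- the contradiction from three states in order
  have hmain : ∀ i < 3, ∀ j < 3, ∀ k < 3, i ≠ j → j ≠ k → δ r i ≤ δ r j → δ r j ≤ δ r k →
      False := by
    intro i hi j hj k hk hij hjk h1 h2
    have hb : j + 3 < 6 := by omega
    have s1 : alive (δ (δ r i) (j + 3)) := (al2 i hi _ hb).2 (Or.inl (by omega))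
    have s2 : ¬ alive (δ (δ r j) (j + 3)) := fun h => by
      rcases (al2 j hj _ hb).1 h with h | h <;> omega
    have m1 := hmono _ hb h1
    have m2 := hmono _ hb h2
    simp only at m1 m2
    -- configurations
    have c1 : (j + 3, δ (δ r i) (j + 3)) ∈ Reach c :=
      htrans _ hr _ ⟨[i, j + 3], ⟨Or.inr ⟨hlr3, hlr6, hi⟩, Or.inl (by omega), trivial⟩, rfl⟩
    have c2 : (j + 3, δ (δ r k) (j + 3)) ∈ Reach c :=
      htrans _ hr _ ⟨[k, j + 3], ⟨Or.inr ⟨hlr3, hlr6, hk⟩, Or.inl (by omega), trivial⟩, rfl⟩
    obtain ⟨v, hv, hve⟩ := hconn _ c2 _ hr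
    obtain ⟨hv1, hv2⟩ := Prod.mk.inj hve
    simp only at hv hv1 hv2
    have c3 : (lr, v.foldl δ (δ (δ r i) (j + 3))) ∈ Reach c :=
      htrans _ c1 _ ⟨v, hv, by rw [hv1]⟩
    have hge : r ≤ v.foldl δ (δ (δ r i) (j + 3)) := by
      by_contra hlt
      exact hrmin _ ⟨lr, hlr3, hlr6, c3⟩ (not_le.1 hlt)
    have hvl := P_lt hv
    have n1 := hmonov v hvl m1
    have n2 := hmonov v hvl m2
    simp only at n1 n2
    rw [← hv2] at n2
    have hd : v.foldl δ (δ (δ r j) (j + 3)) = r := le_antisymm n2 (hge.trans n1)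
    have hra : alive r := (hrg.2 [] (by simp)).2 trivial
    exact s2 (hdead v _ hvl (by rw [hd]; exact hra))
  rcases le_total (δ r 0) (δ r 1) with h01 | h01 <;> rcases le_total (δ r 1) (δ r 2) with h12 | h12 <;>
    rcases le_total (δ r 0) (δ r 2) with h02 | h02
  · exact hmain 0 (by omega) 1 (by omega) 2 (by omega) (by omega) (by omega) h01 h12
  · exact hmain 0 (by omega) 1 (by omega) 2 (by omega) (by omega) (by omega) h01 h12
  · exact hmain 0 (by omega) 2 (by omega) 1 (by omega) (by omega) (by omega) h02 h12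
  · exact hmain 2 (by omega) 0 (by omega) 1 (by omega) (by omega) (by omega) h02 h01
  · exact hmain 1 (by omega) 0 (by omega) 2 (by omega) (by omega) (by omega) h01 h02
  · exact hmain 1 (by omega) 2 (by omega) 0 (by omega) (by omega) (by omega) h12 h02
  · exact hmain 2 (by omega) 1 (by omega) 0 (by omega) (by omega) (by omega) h12 h01
  · exact hmain 2 (by omega) 1 (by omega) 0 (by omega) (by omega) (by omega) h12 h01

/-! ### The language -/

/-- the alphabet `{0,...,5}` -/
def U6 : Finset ℕ := Finset.range 6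

/-- the path language -/
def S : Set (List ℕ) := {w | w = [] ∨ ∃ a v, w = a :: v ∧ a < 6 ∧ P a v}

theorem S_over {w : List ℕ} (h : w ∈ S) : ∀ a ∈ w, a < 6 := by
  rcases h with rfl | ⟨a, v, rfl, ha, hv⟩
  · simp
  · intro b hb
    rcases List.mem_cons.1 hb with rfl | hb
    · exact ha
    · exact P_lt hv b hb

theorem S_left {u v : List ℕ} (h : u ++ v ∈ S) : u ∈ S := by
  cases u with
  | nil => left; rfl
  | cons a u =>
    rcases h with h | ⟨b, w, hw, hb, hp⟩
    · simp at h
    · rw [List.cons_append] at hw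
      obtain ⟨rfl, rfl⟩ := List.cons.inj hw
      exact Or.inr ⟨a, u, rfl, hb, ((P_append _ _ _).1 hp).1⟩

/-- the witness: `U* ∪ c S c` with `c = 6` -/
def LW : Set (List ℕ) := {w | (∀ a ∈ w, a < 6) ∨ ∃ s ∈ S, w = 6 :: (s ++ [6])}

theorem edges_eq (w : List ℕ) (hw : ∀ a ∈ w, a < 6) : w ∈ S ↔
    ∀ j, j + 2 ≤ w.length → ∃ a b, (w.drop j).take 2 = [a, b] ∧ E a b := by
  induction w with
  | nil =>
    constructor
    · intro _ j hj; simp at hj
    · intro _; left; rfl
  | cons a w ih =>
    have ha : a < 6 := hw a List.mem_cons_self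
    have hw' : ∀ b ∈ w, b < 6 := fun b hb => hw b (List.mem_cons_of_mem _ hb)
    cases w with
    | nil =>
      constructor
      · intro _ j hj; simp at hj
      · intro _; exact Or.inr ⟨a, [], rfl, ha, trivial⟩
    | cons b w =>
      have ih' := ih hw'
      constructor
      · intro h j hj
        rcases h with h | ⟨a', v, hv, _, hP⟩
        · simp at h
        obtain ⟨rfl, rfl⟩ := List.cons.inj hv
        cases j with
        | zero => exact ⟨a, b, rfl, hP.1⟩
        | succ j =>
          have h1 : (b :: w) ∈ S := Or.inr ⟨b, w, rfl, (E_lt hP.1).2, hP.2⟩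
          exact ih'.1 h1 j (by simpa using hj)
      · intro h
        have h1 : (b :: w) ∈ S := ih'.2 (fun j hj => h (j + 1) (by simpa using hj))
        obtain ⟨a', b', h2, h3⟩ := h 0 (by simp)
        have h4 : a' = a ∧ b' = b := by
          simp at h2
          exact ⟨h2.1.symm, h2.2.symm⟩
        obtain ⟨rfl, rfl⟩ := h4
        rcases h1 with h1 | ⟨b'', w', h5, _, h6⟩
        · simp at h1
        obtain ⟨rfl, rfl⟩ := List.cons.inj h5
        exact Or.inr ⟨a', _, rfl, ha, h3, h6⟩

theorem S_slt : IsSLT 2 U6 S := by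
  refine ⟨fun w hw a ha => Finset.mem_range.2 (S_over hw a ha), ?_⟩
  refine ⟨{w | ∃ a b, w = [a, b] ∧ E a b}, {w | ∃ a b, w = [a, b] ∧ E a b},
    {w | ∃ a b, w = [a, b] ∧ E a b}, ?_, ?_⟩
  · rintro w hw
    have : ∃ a b, w = [a, b] ∧ E a b := by
      rcases hw with (hw | hw) | hw <;> exact hw
    obtain ⟨a, b, rfl, h⟩ := this
    obtain ⟨h1, h2⟩ := E_lt h
    refine ⟨?_, rfl⟩
    intro x hx
    simp only [List.mem_cons, List.not_mem_nil, or_false] at hx
    rcases hx with rfl | rfl
    · exact Finset.mem_range.2 h1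
    · exact Finset.mem_range.2 h2
  · intro w hw hlen
    rw [edges_eq w (fun a ha => Finset.mem_range.1 (hw a ha))]
    constructor
    · intro h
      refine ⟨?_, ?_, ?_⟩
      · obtain ⟨a, b, h1, h2⟩ := h 0 (by omega)
        exact ⟨a, b, by simpa using h1, h2⟩
      · obtain ⟨a, b, h1, h2⟩ := h (w.length - 2) (by omega)
        refine ⟨a, b, ?_, h2⟩
        rw [← h1, List.take_of_length_le]
        rw [List.length_drop]
        omega
      · intro j _ hj
        exact h j (by omega)
    · rintro ⟨h1, h2, h3⟩ j hj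
      rcases Nat.eq_zero_or_pos j with rfl | hj0
      · exact h1
      · by_cases hj1 : j + 2 + 1 ≤ w.length
        · exact h3 j hj0 hj1
        · have : j = w.length - 2 := by omega
          subst this
          obtain ⟨a, b, h4, h5⟩ := h2
          refine ⟨a, b, ?_, h5⟩
          rw [← h4, List.take_of_length_le]
          rw [List.length_drop]
          omega

theorem all_slt : IsSLT 2 U6 {w | Over U6 w} := by
  refine ⟨fun w hw => hw, {w | Over U6 w ∧ w.length = 2}, {w | Over U6 w ∧ w.length = 2},
    {w | Over U6 w ∧ w.length = 2}, ?_, ?_⟩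
  · rintro w ((hw | hw) | hw) <;> exact hw
  · intro w hw hlen
    refine ⟨fun _ => ⟨⟨?_, ?_⟩, ⟨?_, ?_⟩, ?_⟩, fun _ => hw⟩
    · exact fun a ha => hw a (List.mem_of_mem_take ha)
    · rw [List.length_take]; omega
    · exact fun a ha => hw a (List.mem_of_mem_drop ha)
    · rw [List.length_drop]; omega
    · intro j _ hj
      refine ⟨fun a ha => hw a (List.mem_of_mem_drop (List.mem_of_mem_take ha)), ?_⟩
      rw [List.length_take, List.length_drop]
      omega

/-- the grammar for the witness -/
def GW : Grammar (IsSLT 2) where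
  V := Finset.range 7
  ax := {[]}
  ι := Bool
  fin := inferInstance
  U := fun _ => U6
  sel := fun b => if b then S else {w | Over U6 w}
  ctx := fun b => if b then {([6], [6])} else (Finset.range 6).image (fun a => ([], [a]))
  ax_over := by
    intro w hw
    rw [Finset.mem_singleton.1 hw]
    intro a ha
    simp at ha
  U_sub := by
    intro _
    exact Finset.range_subset_range.2 (by omega)
  sel_over := by
    intro b w hw
    cases b with
    | true => exact fun a ha => Finset.mem_range.2 (S_over hw a ha)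
    | false => exact hw
  sel_fam := by
    intro b
    cases b with
    | true => exact S_slt
    | false => exact all_slt
  ctx_over := by
    intro b c hc
    cases b with
    | true =>
      simp only [if_true, Finset.mem_singleton] at hc
      subst hc
      constructor <;> (intro a ha; simp at ha; subst ha; simp)
    | false =>
      simp only [Bool.false_eq_true, if_false, Finset.mem_image, Finset.mem_range] at hc
      obtain ⟨a, ha, rfl⟩ := hc
      constructor
      · intro x hx; simp at hx
      · intro x hx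
        simp at hx
        subst hx
        simp; omega

theorem LW_mem : LW ∈ EC (IsSLT 2) := by
  refine ⟨GW, ?_⟩
  ext w
  constructor
  · intro h
    induction h with
    | ax w h =>
      left
      have : w = [] := Finset.mem_singleton.1 h
      subst this
      simp
    | step x i c hx hs hc ih =>
      cases i with
      | true =>
        right
        have hc' : c ∈ ({([6], [6])} : Finset (List ℕ × List ℕ)) := hc
        rw [Finset.mem_singleton] at hc'
        subst hc'
        exact ⟨x, hs, by simp⟩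
      | false =>
        left
        have hc' : c ∈ (Finset.range 6).image (fun a => (([] : List ℕ), [a])) := hc
        obtain ⟨a, ha, rfl⟩ := Finset.mem_image.1 hc'
        have hs' : Over U6 x := hs
        intro b hb
        simp only [List.nil_append, List.mem_append, List.mem_singleton] at hb
        rcases hb with hb | rfl
        · exact Finset.mem_range.1 (hs' b hb)
        · exact Finset.mem_range.1 ha
  · have key : ∀ w : List ℕ, (∀ a ∈ w, a < 6) → Gen GW w := by
      intro w
      induction w using List.reverseRecOn with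
      | nil =>
        intro _
        exact Gen.ax _ (Finset.mem_singleton_self _)
      | append_singleton w a ih =>
        intro hw
        have h1 : ∀ b ∈ w, b < 6 := fun b hb => hw b (List.mem_append_left _ hb)
        have h2 : a < 6 := hw a (by simp)
        have := Gen.step (G := GW) w false ([], [a]) (ih h1)
          (fun b hb => Finset.mem_range.2 (h1 b hb))
          (Finset.mem_image.2 ⟨a, Finset.mem_range.2 h2, rfl⟩)
        simpa using this
    rintro (h | ⟨s, hs, rfl⟩)
    · exact key w h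
    · have := Gen.step (G := GW) s true ([6], [6]) (key s (S_over hs)) hs
        (Finset.mem_singleton_self _)
      simpa using this

/-! ### Paths through a given letter, long paths -/

theorem exists_next {l : ℕ} (hl : l < 6) : ∃ a, E l a := by
  by_cases h3 : 3 ≤ l
  · exact ⟨0, Or.inr ⟨h3, hl, by omega⟩⟩
  · by_cases h0 : l = 0
    · exact ⟨4, Or.inl (by omega)⟩
    · exact ⟨3, Or.inl (by omega)⟩

theorem exists_long (n : ℕ) : ∀ l, l < 6 → ∃ w : List ℕ, w.length = n ∧ P l w := by
  induction n with
  | zero => intro l _; exact ⟨[], rfl, trivial⟩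
  | succ n ih =>
    intro l hl
    obtain ⟨a, ha⟩ := exists_next hl
    obtain ⟨w, hw, hP⟩ := ih a (E_lt ha).2
    exact ⟨a :: w, by simp [hw], ha, hP⟩

theorem exists_through {l : ℕ} (hl : l < 6) {a : ℕ} (ha : a < 6) :
    ∃ w : List ℕ, P l w ∧ a ∈ w := by
  have key : ∀ l', 3 ≤ l' → l' < 6 → ∃ w : List ℕ, P l' w ∧ a ∈ w := by
    intro l' h1 h2
    by_cases h3 : a < 3
    · exact ⟨[a], ⟨Or.inr ⟨h1, h2, h3⟩, trivial⟩, by simp⟩
    · refine ⟨[if a = 3 then 1 else 0, a], ⟨Or.inr ⟨h1, h2, ?_⟩, Or.inl ?_, trivial⟩, by simp⟩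
      · split_ifs <;> omega
      · split_ifs <;> omega
  by_cases h3 : 3 ≤ l
  · exact key l h3 hl
  · obtain ⟨b, hb⟩ := exists_next hl
    have hb' : 3 ≤ b ∧ b < 6 := by rcases hb with h | h <;> omega
    obtain ⟨w, hw, haw⟩ := key b hb'.1 hb'.2
    exact ⟨b :: w, ⟨hb, hw⟩, List.mem_cons_of_mem _ haw⟩

/-! ### The language is not generated with ordered selection languages -/

theorem prefix_drop {u w : List ℕ} (h : u <+: w) : u ++ w.drop u.length = w := by
  obtain ⟨t, rfl⟩ := h
  simp

theorem LW_not_mem : LW ∉ EC IsOrdered := by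
  classical
  rintro ⟨G, hG⟩
  have := G.fin
  have hmem : ∀ w, Gen G w ↔ w ∈ LW := by
    intro w
    rw [← hG]
    rfl
  -- a bound on lengths
  obtain ⟨K, hK1, hK2⟩ : ∃ K : ℕ, (∀ w ∈ G.ax, w.length ≤ K) ∧
      (∀ i, ∀ c ∈ G.ctx i, c.1.length + c.2.length ≤ K) := by
    obtain ⟨K1, h1⟩ := (G.ax.finite_toSet.image (fun w : List ℕ => w.length)).bddAbove
    have hfin : (⋃ i, (fun c : List ℕ × List ℕ => c.1.length + c.2.length) ''
        (G.ctx i : Set (List ℕ × List ℕ))).Finite :=
      Set.finite_iUnion fun i => (G.ctx i).finite_toSet.image _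
    obtain ⟨K2, h2⟩ := hfin.bddAbove
    refine ⟨max K1 K2, fun w hw => le_max_of_le_left (h1 ⟨w, hw, rfl⟩), fun i c hc =>
      le_max_of_le_right (h2 (Set.mem_iUnion.2 ⟨i, c, hc, rfl⟩))⟩
  -- Claim 1
  have claim1 : ∀ W, Gen G W → ∀ w ∈ S, W = 6 :: (w ++ [6]) → K ≤ w.length →
      ∃ i, ∃ u v : List ℕ, (6 :: u, v ++ [6]) ∈ G.ctx i ∧ ∃ x ∈ G.sel i, w = u ++ x ++ v := by
    intro W hW
    induction hW with
    | ax W h =>
      intro w _ hW hl
      have := hK1 W h
      rw [hW] at this
      simp at this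
      omega
    | step x i c hx hs hc ih =>
      intro w hw hW hl
      have hno : ∀ a ∈ w, a < 6 := S_over hw
      by_cases huv : c.1 = [] ∧ c.2 = []
      · apply ih w hw _ hl
        rw [← hW, huv.1, huv.2]
        simp
      have hcount : (c.1 ++ x ++ c.2).count 6 = 2 := by
        rw [hW]
        have : w.count 6 = 0 := List.count_eq_zero.2 (fun h => by have := hno 6 h; omega)
        simp [this]
      rcases (hmem x).1 hx with hx' | ⟨s, _, hxs⟩
      · -- x has no letter 6
        have hxne : x ≠ [] := by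
          rintro rfl
          have h1 := hK2 i c hc
          have h2 := congrArg List.length hW
          simp at h2
          omega
        have hx6 : 6 ∉ x := fun h => by have := hx' 6 h; omega
        -- first letter
        obtain ⟨u, hu⟩ : ∃ u, c.1 = 6 :: u := by
          cases hc1 : c.1 with
          | nil =>
            exfalso
            obtain ⟨y, x', rfl⟩ := List.exists_cons_of_ne_nil hxne
            rw [hc1] at hW
            simp only [List.nil_append, List.cons_append] at hW
            exact hx6 (by rw [(List.cons.inj hW).1]; exact List.mem_cons_self)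
          | cons y u =>
            rw [hc1] at hW
            simp only [List.cons_append] at hW
            exact ⟨u, by rw [(List.cons.inj hW).1]⟩
        obtain ⟨v, hv⟩ : ∃ v, c.2 = v ++ [6] := by
          rcases List.eq_nil_or_concat c.2 with h0 | ⟨v, y, hy⟩
          · exfalso
            rcases List.eq_nil_or_concat x with h1 | ⟨x', y, hy⟩
            · exact hxne h1
            · have e : c.1 ++ x' ++ [y] = (6 :: w) ++ [6] := by
                rw [h0, hy, List.concat_eq_append] at hW
                simpa [List.append_assoc] using hW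
              have := (List.append_inj' e rfl).2
              have h6 := (List.cons.inj this).1
              apply hx6
              rw [hy, List.concat_eq_append, h6]
              simp
          · have e : c.1 ++ x ++ v ++ [y] = (6 :: w) ++ [6] := by
              rw [hy, List.concat_eq_append] at hW
              simpa [List.append_assoc] using hW
            have := (List.append_inj' e rfl).2
            have h6 := (List.cons.inj this).1
            exact ⟨v, by rw [hy, List.concat_eq_append, h6]⟩
        refine ⟨i, u, v, ?_, x, hs, ?_⟩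
        · have : c = (6 :: u, v ++ [6]) := by rw [← hu, ← hv]
          rwa [← this]
        · rw [hu, hv] at hW
          have e : (6 :: (u ++ x ++ v)) ++ [6] = (6 :: w) ++ [6] := by
            simpa [List.append_assoc] using hW
          have := List.append_cancel_right e
          exact (List.cons.inj this).2.symm
      · -- x contains two letters 6
        exfalso
        have hx2 : 2 ≤ x.count 6 := by
          rw [hxs]
          simp
        rw [List.count_append, List.count_append] at hcount
        have h1 : 6 ∉ c.1 := List.count_eq_zero.1 (by omega)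
        have h2 : 6 ∉ c.2 := List.count_eq_zero.1 (by omega)
        have e1 : c.1 = [] := by
          cases hc1 : c.1 with
          | nil => rfl
          | cons y u =>
            exfalso
            rw [hc1] at hW
            simp only [List.cons_append] at hW
            apply h1
            rw [hc1, (List.cons.inj hW).1]
            exact List.mem_cons_self
        have e2 : c.2 = [] := by
          rcases List.eq_nil_or_concat c.2 with h0 | ⟨v, y, hy⟩
          · exact h0
          · exfalso
            have e : c.1 ++ x ++ v ++ [y] = (6 :: w) ++ [6] := by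
              rw [hy, List.concat_eq_append] at hW
              simpa [List.append_assoc] using hW
            have := (List.append_inj' e rfl).2
            have h6 := (List.cons.inj this).1
            apply h2
            rw [hy, List.concat_eq_append, h6]
            simp
        exact huv ⟨e1, e2⟩
  -- Claim 2
  have claim2 : ∀ i, ∀ u v : List ℕ, (6 :: u, v ++ [6]) ∈ G.ctx i → ∀ x ∈ G.sel i,
      (∀ a ∈ x, a < 6) → u ++ x ++ v ∈ S := by
    intro i u v hc x hx hx6
    have h1 : Gen G x := (hmem x).2 (Or.inl hx6)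
    have h2 := (hmem _).1 (Gen.step x i _ h1 hx hc)
    rcases h2 with h2 | ⟨s, hs, h2⟩
    · have := h2 6 (by simp)
      omega
    · have e : (6 :: (u ++ x ++ v)) ++ [6] = (6 :: s) ++ [6] := by
        simpa [List.append_assoc] using h2
      have := List.append_cancel_right e
      rw [(List.cons.inj this).2]
      exact hs
  -- the index set and liveness
  let J : Set (G.ι × List ℕ × List ℕ) := {j | (6 :: j.2.1, j.2.2 ++ [6]) ∈ G.ctx j.1}
  have hJ : J.Finite := by
    have hfin : (⋃ i, (fun c : List ℕ × List ℕ => (i, c.1.tail, c.2.dropLast)) ''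
        (G.ctx i : Set (List ℕ × List ℕ))).Finite :=
      Set.finite_iUnion fun i => (G.ctx i).finite_toSet.image _
    refine hfin.subset ?_
    rintro ⟨i, u, v⟩ hj
    exact Set.mem_iUnion.2 ⟨i, (6 :: u, v ++ [6]), hj, by simp⟩
  let Lv : List ℕ → Set (G.ι × List ℕ × List ℕ) := fun w =>
    {j | j ∈ J ∧ ∃ w'' x : List ℕ, x ∈ G.sel j.1 ∧ w ++ w'' = j.2.1 ++ x ∧ ∀ a ∈ x, a < 6}
  have hLfin : ∀ w, (Lv w).Finite := fun w => hJ.subset (fun j hj => hj.1)
  have hLmono : ∀ w w', Lv (w ++ w') ⊆ Lv w := by
    rintro w w' j ⟨hj, w'', x, h1, h2, h3⟩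
    exact ⟨hj, w' ++ w'', x, h1, by rw [← h2, List.append_assoc], h3⟩
  -- choose a word with the least number of live indices
  obtain ⟨a0, v0, ha0, hP0, hmin⟩ : ∃ a v, a < 6 ∧ P a v ∧
      ∀ b w, b < 6 → P b w → (Lv (a :: v)).ncard ≤ (Lv (b :: w)).ncard := by
    have hex : ∃ n, ∃ a v, a < 6 ∧ P a v ∧ (Lv (a :: v)).ncard = n :=
      ⟨_, 0, [], by omega, trivial, rfl⟩
    obtain ⟨a, v, h1, h2, h3⟩ := Nat.find_spec hex
    refine ⟨a, v, h1, h2, fun b w hb hw => ?_⟩
    rw [h3]
    exact Nat.find_min' hex ⟨b, w, hb, hw, rfl⟩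
  have hconst : ∀ w, P (lst a0 v0) w → Lv (a0 :: v0 ++ w) = Lv (a0 :: v0) := by
    intro w hw
    apply Set.eq_of_subset_of_ncard_le (hLmono _ _) _ (hLfin _)
    exact hmin a0 (v0 ++ w) ha0 ((P_append _ _ _).2 ⟨hP0, hw⟩)
  -- make it long
  have hl0 : lst a0 v0 < 6 := lst_lt ha0 (P_lt hP0)
  obtain ⟨v1, hv1, hP1⟩ := exists_long K (lst a0 v0) hl0
  set w0 : List ℕ := a0 :: v0 ++ v1 with hw0
  have hl1 : lst (lst a0 v0) v1 < 6 := lst_lt hl0 (P_lt hP1)
  set l1 : ℕ := lst (lst a0 v0) v1 with hl1d
  have hw0S : ∀ w, w0 ++ w ∈ S ↔ P l1 w := by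
    intro w
    have e : w0 ++ w = a0 :: (v0 ++ v1 ++ w) := by rw [hw0]; simp
    rw [e]
    constructor
    · rintro (h | ⟨a, v, hv, _, hP⟩)
      · simp at h
      · obtain ⟨rfl, rfl⟩ := List.cons.inj hv
        rw [P_append, lst_append] at hP
        exact hP.2
    · intro h
      refine Or.inr ⟨a0, _, rfl, ha0, ?_⟩
      rw [P_append, P_append, lst_append]
      exact ⟨⟨hP0, hP1⟩, h⟩
  have hconst' : ∀ w, P l1 w → Lv (w0 ++ w) = Lv w0 := by
    intro w hw
    have h1 : Lv (w0 ++ w) = Lv (a0 :: v0) := by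
      have := hconst (v1 ++ w) ((P_append _ _ _).2 ⟨hP1, hw⟩)
      rw [← this, hw0]
      simp
    have h2 : Lv w0 = Lv (a0 :: v0) := hconst v1 hP1
    rw [h1, h2]
  -- some index is live
  obtain ⟨j, hj⟩ : (Lv w0).Nonempty := by
    obtain ⟨v2, hv2, hP2⟩ := exists_long (K + K) l1 hl1
    have hS : w0 ++ v2 ∈ S := (hw0S v2).2 hP2
    have hlen : K ≤ (w0 ++ v2).length := by simp [hv2]; omega
    have hgen : Gen G (6 :: (w0 ++ v2 ++ [6])) := (hmem _).2 (Or.inr ⟨_, hS, rfl⟩)
    obtain ⟨i, u, v, hc, x, hx, he⟩ := claim1 _ hgen _ hS rfl hlen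
    have hvl := hK2 i _ hc
    simp at hvl
    -- v is a suffix of v2
    have hx6 : ∀ a ∈ x, a < 6 := by
      intro a ha
      apply S_over hS a
      rw [he]
      simp [ha]
    rcases List.append_eq_append_iff.1 he with ⟨t, h1, h2⟩ | ⟨t, h1, h2⟩
    · exact ⟨(i, u, v), hc, t, x, hx, h1.symm, hx6⟩
    · exfalso
      have := congrArg List.length h2
      rw [List.length_append, hv2] at this
      omega
  obtain ⟨i, u, v⟩ := j
  have hjJ : (6 :: u, v ++ [6]) ∈ G.ctx i := hj.1
  obtain ⟨Z, _, _, δ, z₀, F, hmono, hacc⟩ := G.sel_fam i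
  -- `u` is a prefix of `w0`
  have hul : u.length ≤ w0.length := by
    have h1 := hK2 i _ hjJ
    simp at h1
    rw [hw0]
    simp [hv1]
    omega
  obtain ⟨t0, ht0⟩ : ∃ t0, w0 = u ++ t0 := by
    obtain ⟨_, w'', x, _, h2, _⟩ := hj
    have h3 : u <+: w0 ++ w'' := by rw [h2]; exact List.prefix_append _ _
    have h4 : w0 <+: w0 ++ w'' := List.prefix_append _ _
    obtain ⟨t, ht⟩ := List.prefix_of_prefix_length_le h3 h4 hul
    exact ⟨t, ht.symm⟩
  have hlive : ∀ w, P l1 w → ∃ w'' : List ℕ, t0 ++ w ++ w'' ∈ G.sel i ∧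
      ∀ a ∈ t0 ++ w ++ w'', a < 6 := by
    intro w hw
    have h1 : (i, u, v) ∈ Lv (w0 ++ w) := by rw [hconst' w hw]; exact hj
    obtain ⟨_, w'', x, h2, h3, h4⟩ := h1
    have h5 : x = t0 ++ w ++ w'' := by
      have : u ++ x = u ++ (t0 ++ w ++ w'') := by
        rw [← h3, ht0]; simp
      exact List.append_cancel_left this
    exact ⟨w'', h5 ▸ h2, h5 ▸ h4⟩
  have hUi : ∀ a < 6, a ∈ G.U i := by
    intro a ha
    obtain ⟨w, hw, haw⟩ := exists_through hl1 ha
    obtain ⟨w'', h1, _⟩ := hlive w hw
    exact G.sel_over i _ h1 a (by simp [haw])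
  refine core δ (fun a ha => hmono a (hUi a ha))
    (fun z => ∃ w'' : List ℕ, (∀ a ∈ w'', a < 6) ∧ w''.foldl δ z ∈ F) ?_ l1 hl1
    (t0.foldl δ z₀) ?_
  · rintro z a ha ⟨w'', h1, h2⟩
    refine ⟨a :: w'', ?_, h2⟩
    intro b hb
    rcases List.mem_cons.1 hb with rfl | hb
    · exact ha
    · exact h1 b hb
  · intro w hw
    constructor
    · rintro ⟨w'', h1, h2⟩
      have ht0' : ∀ a ∈ t0, a < 6 := by
        obtain ⟨w3, _, h4⟩ := hlive [] trivial
        intro a ha
        exact h4 a (by simp [ha])
      have hx6 : ∀ a ∈ t0 ++ w ++ w'', a < 6 := by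
        intro a ha
        simp only [List.mem_append] at ha
        rcases ha with (ha | ha) | ha
        · exact ht0' a ha
        · exact hw a ha
        · exact h1 a ha
      have hx : t0 ++ w ++ w'' ∈ G.sel i := by
        rw [hacc]
        refine ⟨fun a ha => hUi a (hx6 a ha), ?_⟩
        rw [List.foldl_append, List.foldl_append]
        exact h2
      have h3 := claim2 i u v hjJ _ hx hx6
      have h4 : w0 ++ w ∈ S := by
        apply S_left (v := w'' ++ v)
        rw [ht0]
        simpa [List.append_assoc] using h3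
      exact (hw0S w).1 h4
    · intro hP
      obtain ⟨w'', h1, h2⟩ := hlive w hP
      refine ⟨w'', fun a ha => h2 a (by simp [ha]), ?_⟩
      have := ((hacc _).1 h1).2
      rwa [List.foldl_append, List.foldl_append] at this

/-- Some language is generated externally by a contextual grammar with strictly locally 2-testable
selection languages but by none with ordered selection languages. -/
theorem result : (EC (IsSLT 2) \ EC IsOrdered).Nonempty := ⟨LW, LW_mem, LW_not_mem⟩

end Pool.Agent.Results.MP_4db40a_lc.StrictlyLocalNotOrdered
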